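import Pool.Agent.Helper55.UG.Fin

/-!
Polarised rational Hodge structures of any weight with only scalar endomorphisms: the operators from the lowest to the
highest piece of the Hodge decomposition in the Mumford-Tate group, and in the group of an `ℓ`-adic representation with
the same Hodge numbers.
-/

open Matrix MH

namespace Pool.Agent.Results.MP_b8862a_ag.GapTheorem

/-- Let `V = ℚ^n` carry a rational Hodge structure of weight `w` (given by the projections `P p` to the subspaces
`V^{p, w-p}`) polarised by the form with matrix `Q`, whose only endomorphisms are the rational numbers. Let `a > b = w - a`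
be such that `P p = 0` for `p > a` and `P c ≠ 0` for some `c` with `b < c < a`; let `s` be the rank of `P a`. Suppose that
there are no `d, k ≥ 2` such that `n = d ^ k` and `d ^ (k - 1)` divides all Hodge numbers. Then

(1) the Mumford-Tate group of `V` is the group of all similitudes of `Q` (of all isometries of determinant one, multiplied
with the scalars if `w ≠ 0`, if `w` is even), and so is the group of every `ℓ`-adic representation with the same Hodge
numbers that contains a monodromy group (if `n ≥ 5`); or the operators `X` from `V^{b, a}` to `V^{a, b}` such that `1 + X` is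
in the Mumford-Tate group are the multiples of one isomorphism, `s` is even if `w` is even, `s ≥ 3` if `w` is odd, and
`5 s ≤ 2 n`; or there is no such operator `X ≠ 0`, and then, if there are only three Hodge numbers `s, h, s`: `s ≤ h`, and if
`s` is an odd prime number and `h ≠ 2 s`, then `h = s²`, `2 h + s = s² + 2` or `(s, h) = (3, 8)`;
(2) let `Γ` be a group of similitudes of `ℚ_ℓ^n` (isometries if `w = 0`) with a Hodge-Tate decomposition of the same ranks.
If the Hodge numbers have no common divisor, `Γ` is semisimple and its complex Tate tensors of type `(1, 1)` are fixed by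
the Mumford-Tate group, then the same three alternatives hold for `Γ`: the Tate tensors of `Γ` are the tensors fixed by the
group of similitudes, or one of the other two alternatives holds for the operators `X` that kill the Tate tensors. -/
theorem result {n : Type*} [Fintype n] [DecidableEq n] (w : ℤ) (Q : Matrix n n ℚ) (S : Finset ℤ)
    (P : ℤ → Matrix n n ℂ) (H : IsHW w Q S P)
    (hEnd : ∀ A : Matrix n n ℚ, (∀ p, toC A * P p = P p * toC A) → ∃ c : ℚ, A = c • (1 : Matrix n n ℚ))
    (a b : ℤ) (haw : a + b = w) (htop : ∀ p, a < p → P p = 0) (hmid : ∃ c, b < c ∧ c < a ∧ P c ≠ 0)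
    (hnum : ∀ d k : ℕ, 2 ≤ d → 2 ≤ k → Fintype.card n = d ^ k → ¬ ∀ p, d ^ (k - 1) ∣ (P p).rank) :
    Tri w P P a b
      ((∀ g : GL n ℂ, g ∈ MT S P ↔ IsGQ w Q g) ∧
        ∀ (ℓ : ℕ) [Fact ℓ.Prime] (ι : ℚ_[ℓ] →+* ℂ) (Γ : Subgroup (GL n ℚ_[ℓ])) (R : ℤ → Matrix n n ℂ)
          (D : Subgroup (GL n ℚ)), 5 ≤ Fintype.card n → IsGalP w Q S P (Γ.map (Matrix.GeneralLinearGroup.map ι)) R →
          IsMon Q S P D → D.map (Matrix.GeneralLinearGroup.map (algebraMap ℚ ℚ_[ℓ])) ≤ Γ →
          ∀ (k l : ℕ) (t : (Fin k ⊕ Fin l → n) → ℂ),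
            IsTateTensor (Γ.map (Matrix.GeneralLinearGroup.map ι)) k l t ↔ MTfix S P k l t)
      (fun X => ∃ g ∈ MT S P, (g : Matrix n n ℂ) = 1 + X) ∧
    ∀ (ℓ : ℕ) [Fact ℓ.Prime] (ι : ℚ_[ℓ] →+* ℂ) (Γ : Subgroup (GL n ℚ_[ℓ])) (R : ℤ → Matrix n n ℂ),
      IsGalP w Q S P (Γ.map (Matrix.GeneralLinearGroup.map ι)) R →
      (∀ d : ℕ, (∀ p, d ∣ (P p).rank) → d = 1) → SemiS Γ →
      (∀ t, IsTateTensor (Γ.map (Matrix.GeneralLinearGroup.map ι)) 1 1 t → MTfix S P 1 1 t) →
      Tri w P R a b
        (∀ (k l : ℕ) (t : (Fin k ⊕ Fin l → n) → ℂ), IsTateTensor (Γ.map (Matrix.GeneralLinearGroup.map ι)) k l t ↔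
          ∀ g : GL n ℂ, IsGQ w Q g → actF (slot k l (g : Matrix n n ℂ) ((g⁻¹ : GL n ℂ) : Matrix n n ℂ)) t = t)
        (fun X => ∀ (k l : ℕ) (t : (Fin k ⊕ Fin l → n) → ℂ),
          IsTateTensor (Γ.map (Matrix.GeneralLinearGroup.map ι)) k l t → dL k l t X = 0) := by
  obtain ⟨c, hbc, hca, hPc⟩ := hmid
  have hab : b < a := by omega
  have hn : Nonempty n := by
    by_contra hcon
    rw [not_nonempty_iff] at hcon
    exact hPc (Subsingleton.elim _ _)
  refine ⟨?_, fun ℓ _ ι Γ R G hgcd hss h11 => ?_⟩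
  · rcases H.gapLH55 hEnd (fun d k h1 h2 h3 h4 => hnum d k h1 h2 h3 h4) haw hab htop hbc hca hPc with
      h3 | ⟨h3, h3', h3'', X₀, h4, h5⟩ | ⟨h3, h4⟩
    · refine Or.inl ⟨fun g => H.MT_full2 h3 g, fun ℓ _ ι Γ R D hn5 G hD hle k l t => H.mon55 h3 hn5 G hD ?_ k l t⟩
      refine le_trans (le_of_eq ?_) (Subgroup.map_mono hle)
      rw [mapC, Subgroup.map_map]
      congr 1
      ext g i j
      simp [Matrix.GeneralLinearGroup.map_apply]
    · refine Or.inr (Or.inl ⟨h3, h3', h3'', X₀, h4, fun X => ?_⟩)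
      rw [← h5 X]
      exact and_congr_right fun hX => (H.deg_iff2 hX (by omega) haw).symm
    · exact Or.inr (Or.inr ⟨fun X hX hg => h3 X hX ((H.deg_iff2 hX (by omega) haw).2 hg), h4⟩)
  · rcases G.gap55p H (vIrr_of_potIrr ι (potIrr_of_t11 ι hss H hEnd h11)) hgcd haw hab htop hbc hca hPc with
      h3 | h3 | ⟨h3, h4⟩
    · exact Or.inl fun k l t => G.tate_GQ55 H h3 k l t
    · exact Or.inr (Or.inl h3)
    · exact Or.inr (Or.inr ⟨h3, h4⟩)

end Pool.Agent.Results.MP_b8862a_ag.GapTheorem
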