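import Mathlib
import Pool.Agent.Helper55.RD.Iterate

/-!
A lower bound for the chromatic number of Delaunay graphs of point sets in the plane with respect to
axis-parallel rectangles: `d(n) ≥ exp (log n / exp (16 √(log log n)))` for all `n ≥ 3`, so `d(n)` is
larger than `exp ((log n) ^ (1 - ε))` for every `ε > 0` and all large `n`.

One step of the construction. Let `π` be a permutation of `[u]` such that no more than `κ / 2` points
are independent, and let `π_r`, `r ∈ ℤ/u`, be its cyclic shifts; the maps `(r, b) ↦ (π_r(b), b)` cover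
every pair exactly once, and no more than `κ` points are independent for `π_r`. The points of the new
configuration are the vectors `y = (y_1, …, y_J)` of digits `y_k = (b_k, E_k) ∈ [u] × [n]`, ordered
vertically by the lexicographic order in which `y_J` is the most significant digit. Their horizontal
coordinates are the vectors `x = (x_1, …, x_J)`, `x_k = (a_k, -E_k)`, with `x_1` the most significant
digit, and `a_k = π_{r_k(C_k)}(b_k)`, where the shift `r_k(C_k)` depends on the context
`C_k = (x_1, …, x_{k-1}; y_{k+1}, …, y_J)`. Two points with the same context `C_k` whose letters `b_k`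
form a visible pair of the permutation are adjacent, whatever their hidden parts `E_k` and lower
digits are. So the density of an independent set is at most the probability that the letter `b_k`
lies in a set `R_k(C_k)`, independent for `π_{r_k(C_k)}`, for all `k`. The shifts are chosen one digit
after the other, so that this probability is, up to a small error, at most its largest value in the
ideal model in which `a_k` and `b_k` are independent and the pair lies in a set `A_k(C_k)` of at most
`κ u` pairs. The existence of the shifts of one digit follows from an exponential moment bound and a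
union bound; the number of the relevant families of sets is small because the average over the
hidden part `E_k` of the digit may be replaced by the average over a small sample, and for a fixed
value of `E_k` only few contexts of the other digits are relevant. In the ideal model the probability
is at most `(κ / u) ^ (J / 2)`, by the norms of the digit operators. Iterating the step with
`J = ℓ / g`, where `2 ^ ℓ` is the number of points and `2 ^ (-g)` the density of the independent sets,
the ratio `ℓ / g` grows only by a constant factor while `ℓ` is multiplied by about `ℓ / g`.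
-/

namespace Pool.Agent.Helper55.Keep.NearPolynomial

open Pool.Agent.Helper55.RD

/-- The Delaunay graph of a finite set `P` of points of the plane with respect to axis-parallel
rectangles: two distinct points are adjacent if some rectangle `[a, b] × [c, d]` meets `P` in exactly
these two points. -/
def delaunay (P : Finset (ℝ × ℝ)) : SimpleGraph P where
  Adj p q := p ≠ q ∧ ∃ a b c d : ℝ, a ≤ b ∧ c ≤ d ∧
    (P : Set (ℝ × ℝ)) ∩ (Set.Icc a b ×ˢ Set.Icc c d) = {(p : ℝ × ℝ), (q : ℝ × ℝ)}
  symm := ⟨by
    rintro p q ⟨h, a, b, c, d, h1, h2, h3⟩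
    exact ⟨h.symm, a, b, c, d, h1, h2, by rw [h3, Set.pair_comm]⟩⟩
  loopless := ⟨fun _ h => h.1 rfl⟩

/-- `d(n)`: the least integer such that the Delaunay graphs of all sets of `n` points of the plane
are `d(n)`-colourable. -/
noncomputable def dnum (n : ℕ) : ℕ :=
  sInf {D : ℕ | ∀ P : Finset (ℝ × ℝ), P.card = n → (delaunay P).Colorable D}

/-- Realisation of a permutation by `n` points of the plane. -/
theorem embed {N : ℕ} (p : Fin N → Fin N) {n : ℕ} (hn : N ≤ n) : ∃ (P : Finset (ℝ × ℝ)) (f : Fin N → P), P.card = n ∧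
      ∀ u v, Vis p id u v → (delaunay P).Adj (f u) (f v) := by
  classical
  set g : Fin N → ℝ × ℝ := fun v => (((p v : ℕ) : ℝ), ((v : ℕ) : ℝ)) with hg
  set far : ℕ → ℝ × ℝ := fun i => (-((i : ℝ) + 1), -((i : ℝ) + 1)) with hfar
  have hgi : Function.Injective g := by
    intro u v huv
    have := (Prod.ext_iff.mp huv).2
    simp only [hg, Nat.cast_inj] at this
    exact Fin.ext this
  have hfi : Function.Injective far := by
    intro i j hij
    have := (Prod.ext_iff.mp hij).1
    simp only [hfar, neg_inj, add_left_inj, Nat.cast_inj] at this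
    exact this
  set P : Finset (ℝ × ℝ) := Finset.univ.image g ∪ (Finset.range (n - N)).image far with hP
  have hdisj : Disjoint (Finset.univ.image g) ((Finset.range (n - N)).image far) := by
    rw [Finset.disjoint_left]
    intro x hx hx'
    obtain ⟨v, -, rfl⟩ := Finset.mem_image.mp hx
    obtain ⟨i, -, hi⟩ := Finset.mem_image.mp hx'
    have := (Prod.ext_iff.mp hi).1
    simp only [hg, hfar] at this
    have h1 : (0 : ℝ) ≤ ((p v : ℕ) : ℝ) := Nat.cast_nonneg _
    have h2 : (0 : ℝ) ≤ i := Nat.cast_nonneg _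
    linarith
  have hmem : ∀ v, g v ∈ P := fun v => by
    rw [hP, Finset.mem_union]
    exact Or.inl (Finset.mem_image_of_mem _ (Finset.mem_univ v))
  refine ⟨P, fun v => ⟨g v, hmem v⟩, ?_, ?_⟩
  · rw [hP, Finset.card_union_of_disjoint hdisj, Finset.card_image_of_injective _ hgi,
      Finset.card_image_of_injective _ hfi, Finset.card_univ, Finset.card_range, Fintype.card_fin]
    omega
  · rintro u v ⟨hY, hX, hempty⟩
    simp only [id] at hY hempty
    refine ⟨fun h => (ne_of_lt hY) (hgi (congrArg Subtype.val h)), ((p u : ℕ) : ℝ), ((p v : ℕ) : ℝ),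
      ((u : ℕ) : ℝ), ((v : ℕ) : ℝ), ?_, ?_, ?_⟩
    · exact_mod_cast (Fin.lt_def.mp hX).le
    · exact_mod_cast (Fin.lt_def.mp hY).le
    ext x
    simp only [Set.mem_inter_iff, Finset.mem_coe, Set.mem_prod, Set.mem_Icc, Set.mem_insert_iff,
      Set.mem_singleton_iff]
    constructor
    · rintro ⟨hxP, ⟨hx1, hx2⟩, ⟨hy1, hy2⟩⟩
      rw [hP, Finset.mem_union, Finset.mem_image, Finset.mem_image] at hxP
      rcases hxP with ⟨w, -, rfl⟩ | ⟨i, -, rfl⟩
      · simp only [hg] at hx1 hx2 hy1 hy2
        rcases hempty w (Fin.le_def.mpr (by exact_mod_cast hy1))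
          (Fin.le_def.mpr (by exact_mod_cast hy2)) (Fin.le_def.mpr (by exact_mod_cast hx1))
          (Fin.le_def.mpr (by exact_mod_cast hx2)) with h | h
        · left; rw [h]
        · right; rw [h]
      · exfalso
        simp only [hfar] at hx1
        have h1 : (0 : ℝ) ≤ ((p u : ℕ) : ℝ) := Nat.cast_nonneg _
        have h2 : (0 : ℝ) ≤ i := Nat.cast_nonneg _
        linarith
    · have hX' : ((p u : ℕ) : ℝ) ≤ ((p v : ℕ) : ℝ) := by exact_mod_cast (Fin.lt_def.mp hX).le
      have hY' : ((u : ℕ) : ℝ) ≤ ((v : ℕ) : ℝ) := by exact_mod_cast (Fin.lt_def.mp hY).le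
      rintro (rfl | rfl)
      · exact ⟨hmem u, ⟨le_rfl, hX'⟩, ⟨le_rfl, hY'⟩⟩
      · exact ⟨hmem v, ⟨hX', le_rfl⟩, ⟨hY', le_rfl⟩⟩

/-- the number of colours needed for a permutation with small independent sets -/
theorem colors {N n D : ℕ} {K : ℝ} (hG : Good N K) (hn : N ≤ n)
    (hD : ∀ P : Finset (ℝ × ℝ), P.card = n → (delaunay P).Colorable D) : (N : ℝ) ≤ D * K := by
  classical
  obtain ⟨p, -, hind⟩ := hG
  obtain ⟨P, f, hPn, hadj⟩ := embed p hn
  obtain ⟨c⟩ := hD P hPn
  have h1 : ∀ i : Fin D, ((Finset.univ.filter (fun v => c (f v) = i)).card : ℝ) ≤ K := by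
    intro i
    apply hind
    intro u hu v hv huv
    simp only [Finset.mem_filter, Finset.mem_univ, true_and] at hu hv
    exact c.valid (hadj u v huv) (hu.trans hv.symm)
  have h2 : N = ∑ i : Fin D, (Finset.univ.filter (fun v : Fin N => c (f v) = i)).card := by
    conv_lhs => rw [← Fintype.card_fin N, ← Finset.card_univ]
    exact Finset.card_eq_sum_card_fiberwise (fun v _ => Finset.mem_coe.mpr (Finset.mem_univ _))
  calc (N : ℝ) = ∑ i : Fin D, ((Finset.univ.filter (fun v : Fin N => c (f v) = i)).card : ℝ) := by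
        rw [← Nat.cast_sum, ← h2]
    _ ≤ ∑ _i : Fin D, K := Finset.sum_le_sum (fun i _ => h1 i)
    _ = D * K := by rw [Finset.sum_const, Finset.card_univ, Fintype.card_fin, nsmul_eq_mul]

/-- two points -/
theorem good_two : Good 2 1 := by
  refine ⟨id, Function.injective_id, fun S hS => ?_⟩
  by_contra hcon
  rw [not_le] at hcon
  have h0 : 1 < S.card := by exact_mod_cast hcon
  have h1 : S = Finset.univ := by
    apply Finset.eq_univ_of_card
    have := Finset.card_le_univ S
    rw [Fintype.card_fin] at this ⊢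
    omega
  apply hS 0 (h1 ▸ Finset.mem_univ _) 1 (h1 ▸ Finset.mem_univ _)
  refine ⟨by decide, by decide, ?_⟩
  intro c _ _ _ _
  fin_cases c
  · left; rfl
  · right; rfl

/-- numerical estimate for small `n` -/
theorem small {y : ℝ} (h1 : 1 / 16 ≤ y) (h2 : y ≤ 9) :
    Real.exp y ≤ Real.log 2 * Real.exp (16 * Real.sqrt y) := by
  have hy0 : 0 ≤ y := by linarith
  have hs1 : 1 / 4 ≤ Real.sqrt y := by
    rw [Real.le_sqrt (by norm_num) hy0]; linarith
  have hs2 : Real.sqrt y ≤ 3 := by
    rw [Real.sqrt_le_left (by norm_num)]; linarith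
  have hs3 : y = Real.sqrt y * Real.sqrt y := (Real.mul_self_sqrt hy0).symm
  have h3 : y + 1 / 2 ≤ 16 * Real.sqrt y := by nlinarith
  have h4 : Real.exp (-(1 / 2)) ≤ Real.log 2 := by
    have h5 : Real.exp (-(1 / 2)) ≤ 1 / (1 + 1 / 2) := by
      rw [Real.exp_neg, ← one_div]
      apply one_div_le_one_div_of_le (by norm_num)
      linarith [Real.add_one_le_exp (1 / 2 : ℝ)]
    have := Real.log_two_gt_d9
    linarith
  have hlog : 0 < Real.log 2 := Real.log_pos (by norm_num)
  calc Real.exp y = Real.exp (-(1 / 2)) * Real.exp (y + 1 / 2) := by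
        rw [← Real.exp_add]; congr 1; ring
    _ ≤ Real.log 2 * Real.exp (16 * Real.sqrt y) := by
        gcongr

theorem small_log {n : ℕ} (hn : 0 < n) (h : n < 2 ^ (2 ^ 13)) : Real.log n ≤ 8192 * Real.log 2 := by
  have hn0 : (0 : ℝ) < n := by exact_mod_cast hn
  have h1 : (n : ℝ) ≤ 2 ^ (2 ^ 13) := by exact_mod_cast h.le
  have h4 : Real.log n ≤ Real.log (2 ^ (2 ^ 13)) := Real.log_le_log hn0 h1
  rw [Real.log_pow] at h4
  have h5 : (((2 ^ 13 : ℕ)) : ℝ) = 8192 := by norm_num
  rwa [h5] at h4

theorem small_loglog {x : ℝ} (hx : 0 < x) (h : x ≤ 8192 * Real.log 2) : Real.log x ≤ 9 := by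
  rw [Real.log_le_iff_le_exp hx]
  have h5 : (2.7182818283 : ℝ) ^ 9 ≤ Real.exp 9 := by
    have h6 : Real.exp 9 = Real.exp 1 ^ 9 := by
      rw [← Real.exp_nat_mul]; norm_num
    rw [h6]
    have := Real.exp_one_gt_d9
    gcongr
  have h7 : 8192 * (0.6931471808 : ℝ) ≤ (2.7182818283 : ℝ) ^ 9 := by norm_num
  have h8 : Real.log 2 < 0.6931471808 := Real.log_two_lt_d9
  linarith

/-- `log log n ≥ 1 / 16` for `n ≥ 3` -/
theorem loglog_ge {n : ℕ} (hn : 3 ≤ n) : 1 / 16 ≤ Real.log (Real.log n) ∧ 1 ≤ Real.log n := by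
  have h1 : (3 : ℝ) ≤ n := by exact_mod_cast hn
  have h2 : 1.09 ≤ Real.log n := by
    have h3 : Real.log 3 ≤ Real.log n := Real.log_le_log (by norm_num) h1
    have h4 : 1.09 ≤ Real.log 3 := by
      have h5 : Real.log 3 = 1 + Real.log (3 / Real.exp 1) := by
        rw [Real.log_div (by norm_num) (Real.exp_pos 1).ne', Real.log_exp]; ring
      have h6 := Real.one_sub_inv_le_log_of_pos (show 0 < 3 / Real.exp 1 by positivity)
      have h7 := Real.exp_one_lt_d9
      rw [inv_div] at h6
      rw [h5]
      linarith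
    linarith
  refine ⟨?_, by linarith⟩
  have h6 := Real.one_sub_inv_le_log_of_pos (show 0 < Real.log n by linarith)
  have h7 : (Real.log n)⁻¹ ≤ (1.09 : ℝ)⁻¹ := by
    apply inv_anti₀ (by norm_num) h2
  have h8 : (1.09 : ℝ)⁻¹ ≤ 15 / 16 := by norm_num
  linarith

theorem PP_strictMono : StrictMono PP := strictMono_nat_of_lt_succ (fun i => by
  have : PP (i + 1) = PP i + tt i + 3 := rfl
  omega)

/-- the range of the iterated constructions that contains `n` -/
theorem exists_index {n : ℕ} (hn : 2 ^ (2 ^ 13) ≤ n) :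
    ∃ i, 2 ^ (2 ^ PP i) ≤ n ∧ n < 2 ^ (2 ^ PP (i + 1)) := by
  have hex : ∃ j, n < 2 ^ (2 ^ PP j) := by
    refine ⟨n, ?_⟩
    calc n < 2 ^ n := Nat.lt_two_pow_self
      _ ≤ 2 ^ (2 ^ PP n) := by
          apply Nat.pow_le_pow_right (by norm_num)
          calc n ≤ PP n := PP_strictMono.id_le n
            _ ≤ 2 ^ PP n := Nat.lt_two_pow_self.le
  have hspec := Nat.find_spec hex
  have hne : Nat.find hex ≠ 0 := by
    intro h
    rw [h] at hspec
    have : PP 0 = 13 := rfl
    rw [this] at hspec
    omega
  obtain ⟨i, hi⟩ := Nat.exists_eq_succ_of_ne_zero hne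
  refine ⟨i, ?_, ?_⟩
  · have := Nat.find_min hex (m := i) (by omega)
    omega
  · rw [hi] at hspec
    exact hspec

/-- For every `n ≥ 3`: `d(n) ≥ exp (log n / exp (16 √(log log n)))`. -/
theorem nearPolynomial (n : ℕ) (hn : 3 ≤ n) :
    Real.exp (Real.log n / Real.exp (16 * Real.sqrt (Real.log (Real.log n)))) ≤ (dnum n : ℝ) := by
  have hne : {D : ℕ | ∀ P : Finset (ℝ × ℝ), P.card = n → (delaunay P).Colorable D}.Nonempty := by
    refine ⟨n, fun P hP => ?_⟩
    have := (delaunay P).colorable_of_fintype
    rwa [Fintype.card_coe, hP] at this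
  have hD : ∀ P : Finset (ℝ × ℝ), P.card = n → (delaunay P).Colorable (dnum n) := Nat.sInf_mem hne
  have hn0 : (0 : ℝ) < n := by exact_mod_cast (by omega : 0 < n)
  obtain ⟨hll, hl1⟩ := loglog_ge hn
  have hl0 : 0 < Real.log n := by linarith
  have hl2 : 0 < Real.log 2 := Real.log_pos (by norm_num)
  have hl2a : Real.log 2 < 0.6931471808 := Real.log_two_lt_d9
  have hl2b : 0.6931471803 < Real.log 2 := Real.log_two_gt_d9
  set y := Real.log (Real.log n) with hy
  have hyl : Real.exp y = Real.log n := Real.exp_log hl0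
  rcases lt_or_ge n (2 ^ (2 ^ 13)) with hsmall | hlarge
  · -- small `n`
    have h2 : (2 : ℝ) ≤ dnum n := by
      have := colors good_two (by omega) hD
      push_cast at this
      linarith
    have hy9 : y ≤ 9 := small_loglog hl0 (small_log (by omega) hsmall)
    have h3 := small hll hy9
    have h4 : Real.log n / Real.exp (16 * Real.sqrt y) ≤ Real.log 2 := by
      rw [div_le_iff₀ (Real.exp_pos _), ← hyl]
      exact h3
    calc Real.exp (Real.log n / Real.exp (16 * Real.sqrt y)) ≤ Real.exp (Real.log 2) :=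
          Real.exp_le_exp.mpr h4
      _ = 2 := Real.exp_log (by norm_num)
      _ ≤ dnum n := h2
  · -- large `n`
    obtain ⟨i, hi1, hi2⟩ := exists_index hlarge
    have hcol := colors (good_iter i) hi1 hD
    have hge := PP_ge i
    have hsq := PP_ge_sq i
    have h13 := PP_ge_13 i
    -- the lower bound for the number of colours
    have hd : (2 : ℝ) ^ (2 ^ (PP i - tt i)) ≤ dnum n := by
      have e : (dnum n : ℝ) * (2 ^ (2 ^ PP i) / 2 ^ (2 ^ (PP i - tt i))) =
          (dnum n / 2 ^ (2 ^ (PP i - tt i))) * 2 ^ (2 ^ PP i) := by ring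
      rw [e, Nat.cast_pow, Nat.cast_ofNat] at hcol
      have h1 : (1 : ℝ) ≤ dnum n / 2 ^ (2 ^ (PP i - tt i)) := by
        have h2 : (0 : ℝ) < 2 ^ (2 ^ PP i) := by positivity
        by_contra hcon
        rw [not_le] at hcon
        have := mul_lt_mul_of_pos_right hcon h2
        linarith
      rwa [one_le_div (by positivity)] at h1
    -- the logarithm of `n`
    have hlog_lt : Real.log n ≤ 2 ^ (PP i + tt i + 3) * Real.log 2 := by
      have h1 : (n : ℝ) ≤ 2 ^ (2 ^ (PP i + tt i + 3)) := by exact_mod_cast hi2.le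
      have h2 := Real.log_le_log hn0 h1
      rw [Real.log_pow] at h2
      push_cast at h2
      exact h2
    have hlog_ge : 2 ^ PP i * Real.log 2 ≤ Real.log n := by
      have h1 : (2 : ℝ) ^ (2 ^ PP i) ≤ n := by exact_mod_cast hi1
      have h2 := Real.log_le_log (by positivity) h1
      rw [Real.log_pow] at h2
      push_cast at h2
      exact h2
    -- `log log n ≥ (i + 1)²`
    have hy1 : ((i : ℝ) + 1) ^ 2 ≤ y := by
      have h1 : Real.log (2 ^ PP i * Real.log 2) ≤ y := Real.log_le_log (by positivity) hlog_ge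
      rw [Real.log_mul (by positivity) hl2.ne', Real.log_pow] at h1
      have h2 : 1 - (Real.log 2)⁻¹ ≤ Real.log (Real.log 2) :=
        Real.one_sub_inv_le_log_of_pos hl2
      have h3 : (Real.log 2)⁻¹ ≤ 3 / 2 := by
        rw [inv_le_comm₀ hl2 (by norm_num)]
        linarith
      have h4 : (13 : ℝ) ≤ PP i := by exact_mod_cast h13
      have h5 : 2 * ((i : ℝ) + 1) ^ 2 ≤ PP i := by exact_mod_cast hsq
      nlinarith
    have hsqrt : (i : ℝ) + 1 ≤ Real.sqrt y := by
      rw [Real.le_sqrt (by positivity) (by linarith)]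
      exact hy1
    -- conclusion
    have hexp : (2 : ℝ) ^ (2 * tt i + 3) ≤ Real.exp (16 * Real.sqrt y) := by
      have h1 : (2 : ℝ) ^ (2 * tt i + 3) = Real.exp ((2 * tt i + 3 : ℕ) * Real.log 2) := by
        rw [Real.exp_nat_mul, Real.exp_log (by norm_num)]
      rw [h1]
      apply Real.exp_le_exp.mpr
      have h2 : ((2 * tt i + 3 : ℕ) : ℝ) = 23 + 10 * i := by
        simp only [tt]; push_cast; ring
      rw [h2]
      have hi0 : (0 : ℝ) ≤ i := Nat.cast_nonneg _
      nlinarith
    have hmain : Real.log n / Real.exp (16 * Real.sqrt y) ≤ 2 ^ (PP i - tt i) * Real.log 2 := by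
      rw [div_le_iff₀ (Real.exp_pos _)]
      calc Real.log n ≤ 2 ^ (PP i + tt i + 3) * Real.log 2 := hlog_lt
        _ = 2 ^ (PP i - tt i) * Real.log 2 * 2 ^ (2 * tt i + 3) := by
            have : PP i + tt i + 3 = (PP i - tt i) + (2 * tt i + 3) := by omega
            rw [this, pow_add]; ring
        _ ≤ 2 ^ (PP i - tt i) * Real.log 2 * Real.exp (16 * Real.sqrt y) := by gcongr
    calc Real.exp (Real.log n / Real.exp (16 * Real.sqrt y))
        ≤ Real.exp (2 ^ (PP i - tt i) * Real.log 2) := Real.exp_le_exp.mpr hmain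
      _ = 2 ^ (2 ^ (PP i - tt i)) := by
          have : (2 : ℝ) ^ (PP i - tt i) = ((2 ^ (PP i - tt i) : ℕ) : ℝ) := by push_cast; rfl
          rw [this, Real.exp_nat_mul, Real.exp_log (by norm_num)]
      _ ≤ dnum n := hd

end Pool.Agent.Helper55.Keep.NearPolynomial
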