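import Pool.Agent.Helper27.PR.JCrit

/-!
Symplectic Mumford-Tate pairs of weights zero and one with an irreducible standard representation:
the sets of slopes of Frobenius and residue degrees, at several places at once, which force the
group to contain all the similitudes.
-/

set_option linter.unusedVariables false

open Module MTPairs PR

namespace Pool.Agent.Results.MP_b8862a_ag.NewtonPolygons

variable {K : Type*} [Field K] {m : Type*} [Fintype m] [DecidableEq m]

/-- The group `G` contains all the similitudes of the form with Gram matrix `J`. -/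
def IsFull (J : Matrix m m K) (G : Subgroup (Matrix.GeneralLinearGroup m K)) : Prop :=
  ∀ g : Matrix.GeneralLinearGroup m K,
    (∃ c : K, (g : Matrix m m K).transpose * J * (g : Matrix m m K) = c • J) → g ∈ G

/-- A place with slopes `Λ` and index `N`: a subgroup `Γv` of `Γ` and a cocharacter `πv` of `G` of
weights `0` and `1` (both occur) with the slopes `Λ`, whose class is stable under a subgroup of
index `N` of `Γv`. -/
def HasPlace (Γ : Subgroup (Equiv.Perm (m → K))) (G : Subgroup (Matrix.GeneralLinearGroup m K))
    (Λ : Multiset ℚ) (N : ℕ) : Prop :=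
  ∃ Γv ≤ Γ, ∃ πv : Matrix m m K, IsCochar G πv ∧ πv ≠ 0 ∧ πv ≠ 1 ∧
    HasSlopes Γv G πv Λ ∧ HasIndex Γv G πv N

/-- The Newton polygon theorem for several places. Let `R` be a set of pairs `(Λ, N)`, `N > 0`.
Every strong symplectic Mumford-Tate pair of weights `0` and `1` with an irreducible standard
representation which has, for every `(Λ, N)` in `R`, a place with slopes `Λ` and index `N` is full,
if and only if `R` is not contained in one of the families `TensorAt k d` (`k ≥ 3` odd, `d > 0`
even), `WedgeAt n` (`n ≥ 3` odd), `SpinAt q` (`q ≥ 5`, `q` equal to `1` or `2` modulo `4`). If one of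
the `Λ` contains some number with an odd multiplicity, then the same holds for the weak pairs. -/
theorem result {K : Type*} [Field K] [IsAlgClosed K] [CharZero K]
    (R : Set (Multiset ℚ × ℕ)) (hR : ∀ r ∈ R, 0 < r.2) :
    ((∀ (m : Type) [Fintype m] [DecidableEq m] (Γ : Subgroup (Equiv.Perm (m → K)))
        (J : Matrix m m K) (G : Subgroup (Matrix.GeneralLinearGroup m K)) (π : Matrix m m K),
        IsStrongMTPair Γ J G π → IsIrr G → (∀ r ∈ R, HasPlace Γ G r.1 r.2) → IsFull J G) ↔
      ¬ Exceptional R) ∧
    ((∃ r ∈ R, ∃ l, Odd (r.1.count l)) →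
      ((∀ (m : Type) [Fintype m] [DecidableEq m] (Γ : Subgroup (Equiv.Perm (m → K)))
        (J : Matrix m m K) (G : Subgroup (Matrix.GeneralLinearGroup m K)),
        IsGalPair Γ J G → IsIrr G → (∀ r ∈ R, HasPlace Γ G r.1 r.2) → IsFull J G) ↔
      ¬ Exceptional R)) :=
  ⟨jcrit_strong R hR, fun h => jcrit_weak R hR h⟩

end Pool.Agent.Results.MP_b8862a_ag.NewtonPolygons
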